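import Pool.Agent.FourCubes95.Cubes

set_option autoImplicit false

namespace Pool.Agent.Results.MP_30d25d_nt.OpenClasses

/-- `S m`: the set of all ordered integer quadruples with `x³ + y³ + z³ + w³ = m`. -/
def S (m : ℤ) : Set (ℤ × ℤ × ℤ × ℤ) :=
  {q | q.1 ^ 3 + q.2.1 ^ 3 + q.2.2.1 ^ 3 + q.2.2.2 ^ 3 = m}

/-- For `m ≡ ±4 mod 9` the set `S m` is infinite if and only if it contains a quadruple that is
not made of two equal pairs and that either has two complementary pair sums of opposite signs, or
satisfies `|x + y + z + w|³ < 4|m|`. -/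
theorem result : ∀ m : ℤ, (m % 9 = 4 ∨ m % 9 = 5) →
    ((S m).Infinite ↔ ∃ x y z w : ℤ, x ^ 3 + y ^ 3 + z ^ 3 + w ^ 3 = m ∧
      ¬ ((x = y ∧ z = w) ∨ (x = z ∧ y = w) ∨ (x = w ∧ y = z)) ∧
      ((x + y) * (z + w) < 0 ∨ (x + z) * (y + w) < 0 ∨ (x + w) * (y + z) < 0 ∨
        |x + y + z + w| ^ 3 < 4 * |m|)) := by
  intro m hm
  constructor
  · intro hinf
    by_contra hcon
    push Not at hcon
    apply hinf
    -- everything lies in a box
    have hm0 : m ≠ 0 := by omega
    set B : ℤ := 4 * |m| with hB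
    refine ((Set.finite_Icc (-B) B).prod ((Set.finite_Icc (-B) B).prod
      ((Set.finite_Icc (-B) B).prod (Set.finite_Icc (-B) B)))).subset ?_
    rintro ⟨x, y, z, w⟩ hq
    have hq' : x ^ 3 + y ^ 3 + z ^ 3 + w ^ 3 = m := hq
    have hbox : |x| ≤ B ∧ |y| ≤ B ∧ |z| ≤ B ∧ |w| ≤ B := by
      by_cases hp : (x = y ∧ z = w) ∨ (x = z ∧ y = w) ∨ (x = w ∧ y = z)
      · rcases hp with ⟨rfl, rfl⟩ | ⟨rfl, rfl⟩ | ⟨rfl, rfl⟩
        · have := FourCubes95.box_of_pairs hm0 hq'
          exact ⟨this.1, this.1, this.2, this.2⟩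
        · have := FourCubes95.box_of_pairs (x := x) (z := y) hm0 (by rw [← hq']; ring)
          exact ⟨this.1, this.2, this.1, this.2⟩
        · have := FourCubes95.box_of_pairs (x := x) (z := y) hm0 (by rw [← hq']; ring)
          exact ⟨this.1, this.2, this.2, this.1⟩
      · have h1 := hcon x y z w hq' ⟨fun a b => hp (Or.inl ⟨a, b⟩),
          fun a b => hp (Or.inr (Or.inl ⟨a, b⟩)), fun a b => hp (Or.inr (Or.inr ⟨a, b⟩))⟩
        have hres := FourCubes95.residues hm hq'
        have hA : x + y ≠ 0 := by omega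
        have hC : z + w ≠ 0 := by omega
        have hAC : 0 < (x + y) * (z + w) :=
          lt_of_le_of_ne h1.1 (Ne.symm (mul_ne_zero hA hC))
        exact FourCubes95.box_of_pos hq' hAC
    obtain ⟨h1, h2, h3, h4⟩ := hbox
    exact ⟨abs_le.1 h1, abs_le.1 h2, abs_le.1 h3, abs_le.1 h4⟩
  · rintro ⟨x, y, z, w, h, hne, hor⟩
    have hres := FourCubes95.residues hm h
    have hk0 : x + y + z + w ≠ 0 := by omega
    have main : ∀ x y z w m : ℤ, (m % 9 = 4 ∨ m % 9 = 5) → x ^ 3 + y ^ 3 + z ^ 3 + w ^ 3 = m →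
        ¬ ((x = y ∧ z = w) ∨ (x = z ∧ y = w) ∨ (x = w ∧ y = z)) → 0 < x + y + z + w →
        ((x + y) * (z + w) < 0 ∨ (x + z) * (y + w) < 0 ∨ (x + w) * (y + z) < 0 ∨
          |x + y + z + w| ^ 3 < 4 * |m|) → (FourCubes95.S m).Infinite := by
      intro x y z w m hm h hne hk hor
      have hres := FourCubes95.residues hm h
      apply FourCubes95.infinite_pos hm h hk hne
      rcases hor with h1 | h1 | h1 | h1
      · exact Or.inl h1
      · exact Or.inr (Or.inl h1)
      · exact Or.inr (Or.inr (Or.inl h1))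
      · rw [abs_of_pos hk] at h1
        rcases le_or_gt 0 m with hm1 | hm1
        · rw [abs_of_nonneg hm1] at h1
          exact Or.inr (Or.inr (Or.inr h1))
        · left
          by_contra hcon
          rw [not_lt] at hcon
          have hA : x + y ≠ 0 := by omega
          have hC : z + w ≠ 0 := by omega
          have hAC : 0 < (x + y) * (z + w) := lt_of_le_of_ne hcon (Ne.symm (mul_ne_zero hA hC))
          rcases pos_and_pos_or_neg_and_neg_of_mul_pos hAC with ⟨h2, h3⟩ | ⟨h2, h3⟩
          · have e : 4 * m = (x + y) ^ 3 + 3 * (x + y) * (x - y) ^ 2 + (z + w) ^ 3 +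
                3 * (z + w) * (z - w) ^ 2 := by rw [← h]; ring
            have p1 : 0 < (x + y) ^ 3 := by positivity
            have p2 : 0 < (z + w) ^ 3 := by positivity
            have p3 : 0 ≤ 3 * (x + y) * (x - y) ^ 2 := by positivity
            have p4 : 0 ≤ 3 * (z + w) * (z - w) ^ 2 := by positivity
            linarith
          · linarith
    rcases lt_or_gt_of_ne hk0 with hk | hk
    · apply FourCubes95.S_neg
      apply main (-x) (-y) (-z) (-w) (-m) (by omega) (by rw [← h]; ring)
      · intro h1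
        apply hne
        simpa using h1
      · linarith
      · have e1 : (-x + -y) * (-z + -w) = (x + y) * (z + w) := by ring
        have e2 : (-x + -z) * (-y + -w) = (x + z) * (y + w) := by ring
        have e3 : (-x + -w) * (-y + -z) = (x + w) * (y + z) := by ring
        have e4 : |-x + -y + -z + -w| = |x + y + z + w| := by
          rw [← abs_neg]; congr 1; ring
        rw [e1, e2, e3, e4, abs_neg]
        exact hor
    · exact main x y z w m hm h hne hk hor

end Pool.Agent.Results.MP_30d25d_nt.OpenClasses
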