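import Pool.Agent.FourCubes51.Nine

set_option autoImplicit false

namespace Pool.Agent.Results.MP_30d25d_nt.SevenNinths

/-- `S m`: the set of all ordered integer quadruples with `x³ + y³ + z³ + w³ = m`. -/
def S (m : ℤ) : Set (ℤ × ℤ × ℤ × ℤ) :=
  {q | q.1 ^ 3 + q.2.1 ^ 3 + q.2.2.1 ^ 3 + q.2.2.2 ^ 3 = m}

/-- For every integer `m` not congruent to `4` or `5` modulo `9` the set `S m` is infinite. -/
theorem result : ∀ m : ℤ, ¬ (m % 9 = 4 ∨ m % 9 = 5) → (S m).Infinite :=
  fun _ hm => (FourCubes51.good_all hm).infinite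

end Pool.Agent.Results.MP_30d25d_nt.SevenNinths
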